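import Pool.Agent.Helper79.GT.St2

set_option autoImplicit false

namespace Pool.Agent.Helper98.GT

open Pool.Agent.Helper79.GT Pool.Agent.Helper79.GS Pool.Agent.Helper19.SK

private theorem div_step (S g : ℤ) (hg : g ≠ 0) : -(S + g) / g = -S / g - 1 := by
  have h : -(S + g) = -S + (-1) * g := by ring
  rw [h, Int.add_mul_ediv_right _ _ hg]
  ring

/-- Scores in the window. -/
theorem hWSC : Pool.Agent.Helper79.GT.StWSC := by
  intro P A D pt g N M B d₀ hK x y hxy
  obtain ⟨h1, h2⟩ := hxy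
  rcases x with a | c
  · rcases y with a' | c'
    · have h1' : und A D true a.1 a'.1 ∧ (a'.2.val : ℤ) = a.2.val + A.cp true a.1 a'.1 := h1
      have h2' : und A D false a'.1 a.1 ∧ (a.2.val : ℤ) = a'.2.val + A.cp false a'.1 a.1 := h2
      obtain ⟨-, hc, -, hs⟩ := hK.ko a.1 a'.1 h1'.1.1 h2'.1.1
      have e1 : (a'.2.val : ℤ) = a.2.val + 1 := by rw [h1'.2, hc]
      change -4 * (-(A.sc a'.1 (d₀ - B + a'.2.val)) / (g : ℤ)) = -4 * (-(A.sc a.1 (d₀ - B + a.2.val)) / (g : ℤ)) + 4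
      have e2 : d₀ - B + (a'.2.val : ℤ) = (d₀ - B + a.2.val) + 1 := by rw [e1]; ring
      have hg : (g : ℤ) ≠ 0 := by
        have := hK.gp
        omega
      rw [e2, hs, div_step _ _ hg]
      ring
    · exact absurd h2 (fun h => h)
  · exact absurd h1 (fun h => h)

end Pool.Agent.Helper98.GT
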